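import Pool.Agent.NPG.Stmts

/-!
# Row CPW of squad NPG: groups which are not precompact
-/

set_option autoImplicit false

open MeasureTheory Set Topology
open scoped BigOperators Pointwise

namespace Pool.Agent.NPG.H75

open Pool.Agent.LSG Pool.Agent.NPG

/-- Row CPW -/
theorem cpw (hDSQ : DsqStmt) (hLSE : LseStmt) (hSCN : ScnStmt) (hONE : OneStmt) (hDEC : DecStmt)
    (hPRD : PrdStmt) : CpwStmt := by
  intro H _ _ _ _ hU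
  obtain ⟨V, d, hVo, hV1, hVs, hd⟩ := hDSQ H hU
  obtain ⟨V₀, hV₀o, hV₀1, hV₀s, hV₀V⟩ : ∃ V₀ : Set H, IsOpen V₀ ∧ (1 : H) ∈ V₀ ∧
      (∀ x ∈ V₀, x⁻¹ ∈ V₀) ∧ ∀ x ∈ V₀, ∀ y ∈ V₀, x * y ∈ V := by
    obtain ⟨W, hWo, hW1, hWV⟩ := exists_open_nhds_one_mul_subset (hVo.mem_nhds hV1)
    refine ⟨W ∩ W⁻¹, hWo.inter hWo.inv, ⟨hW1, by rw [Set.mem_inv, inv_one]; exact hW1⟩, ?_, ?_⟩
    · rintro x ⟨h1, h2⟩
      refine ⟨h2, ?_⟩
      rw [Set.mem_inv, inv_inv]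
      exact h1
    · rintro x ⟨h1, -⟩ y ⟨h2, -⟩
      exact hWV (Set.mul_mem_mul h1 h2)
  obtain ⟨L, l, hLc, hdL, hlL, hdense⟩ := hLSE H d
  obtain ⟨D, ξ, hDc, hDlf, hDcov, hDinv, hDrep, hDloc⟩ := hSCN H L V₀ hLc hV₀o hV₀1
  have hE : ∀ n, Compl (ℕ → ↥(Rv (D n) (Ear D n))) ↥(Rv (D n) (Ear D n)) := by
    intro n
    have h := hONE H V V₀ d l L (D n) {x | ∃ m < n, x ∈ D m} (ξ n) hVo hV1 hVs hV₀o hV₀1 hV₀s
      hV₀V hd hdL hlL hdense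
      (by
        intro x z hz
        refine ⟨(hDinv n x z hz).1, ?_, (hDinv n x z hz).2⟩
        constructor
        · rintro ⟨m, hm, hx⟩
          exact ⟨m, hm, (hDinv m x z hz).1.mp hx⟩
        · rintro ⟨m, hm, hx⟩
          exact ⟨m, hm, (hDinv m x z hz).1.mpr hx⟩)
      (hDrep n) (hDloc n)
    exact h
  obtain ⟨i, p, hip⟩ := hPRD (fun n => ↥(Rv (D n) (Ear D n))) hE
  obtain ⟨e⟩ := hDEC H D hDc hDlf hDcov
  refine ⟨(e.symm : (∀ n, ↥(Rv (D n) (Ear D n))) →L[ℝ] ↥(Cp H)).comp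
      (i.comp (ContinuousLinearMap.pi fun k =>
        (e : ↥(Cp H) →L[ℝ] (∀ n, ↥(Rv (D n) (Ear D n)))).comp
          (ContinuousLinearMap.proj (R := ℝ) (φ := fun _ : ℕ => ↥(Cp H)) k))),
    ContinuousLinearMap.pi fun k =>
      (e.symm : (∀ n, ↥(Rv (D n) (Ear D n))) →L[ℝ] ↥(Cp H)).comp
        ((ContinuousLinearMap.proj (R := ℝ) (φ := fun _ : ℕ => ∀ n, ↥(Rv (D n) (Ear D n))) k).comp
          (p.comp (e : ↥(Cp H) →L[ℝ] (∀ n, ↥(Rv (D n) (Ear D n)))))), ?_⟩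
  intro x
  funext k
  show e.symm (p (e (e.symm (i fun k => e (x k)))) k) = x k
  rw [e.apply_symm_apply, hip, e.symm_apply_apply]

end Pool.Agent.NPG.H75
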